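import Pool.Agent.Q200.AT.Lift

/-!
# The conjecture A in families: from dimension `d + 1` to dimension `d`
-/

open CategoryTheory AlgebraicGeometry Finset

universe u v

namespace Pool.Agent.Q200.AT

open Pool.Agent.H914 Pool.Agent.H914.VarClass Pool.Agent.H914.VarClass.Obj
  Pool.Agent.H914.WeilCohomology Pool.Agent.H447 Pool.Agent.Q26.LF

lemma pow_of_sq_zero {R : Type*} [Ring R] {a b : R} (h : Commute a b) (hb : b * b = 0) (s : ℕ) :
    (a + b) ^ (s + 1) = a ^ s * (a + ((s + 1 : ℕ) : R) * b) := by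
  induction s with
  | zero => simp
  | succ s ih =>
    have h1 : b * a = a * b := h.eq.symm
    rw [pow_succ, ih, pow_succ a s]
    have h2 : (a + ((s + 1 : ℕ) : R) * b) * (a + b) =
        a * (a + ((s + 1 + 1 : ℕ) : R) * b) := by
      rw [add_mul, mul_add, mul_add, mul_add, mul_assoc, mul_assoc, hb, mul_zero, add_zero, h1,
        ← mul_assoc a _ b, (Nat.cast_commute (s + 1 + 1) a).eq.symm, mul_assoc]
      push_cast
      noncomm_ring
    rw [mul_assoc, h2, mul_assoc]

variable {k : Type u} [Field k] {𝒱 : VarClass k} {ops : CycleOps 𝒱}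
  {W : WeilCohomology.{u, v} ops} {X C : 𝒱.Obj}

lemma push_fst_snd {p : ℕ} {e : W.H C} (he : e ∈ W.gr C (2 * p)) :
    W.push (fst X C) (W.map (snd X C) e) = W.tr C e • 1 := by
  apply W.tr_ext
  intro b
  rw [W.tr_push, W.even_comm (W.map_mem _ he), W.tr_prod, smul_mul_assoc, one_mul, map_smul,
    smul_eq_mul, mul_comm]

lemma push_fst_span (hC : C.dim = 1) {q : ℕ} {γ : W.H (X.prod C)}
    (hγ : γ ∈ spanCycles W (X.prod C) ((q + 1 : ℕ) : ℤ)) :
    W.push (fst X C) γ ∈ spanCycles W X (q : ℤ) := by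
  induction hγ using Submodule.span_induction with
  | mem x hx =>
    obtain ⟨p, hp, z, hz, rfl⟩ := hx
    obtain rfl : p = q + 1 := by exact_mod_cast hp
    exact Submodule.subset_span ⟨q, rfl, ops.push (fst X C) z,
      ops.push_mem _ hz (by rw [dim_prod, hC]; omega), W.cl_push _ _⟩
  | zero => rw [map_zero]; exact Submodule.zero_mem _
  | add x y _ _ hx hy => rw [map_add]; exact Submodule.add_mem _ hx hy
  | smul a x _ hx => rw [map_smul]; exact Submodule.smul_mem _ _ hx

/-- **The conjecture A for `X × C` implies the conjecture A for `X`.** -/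
theorem descend {c₀ : ℕ} {D : X.Cycles} {E : C.Cycles} (hD : X.IsCyc 1 D) (hE : C.IsCyc 1 E)
    (hC : C.dim = 1) (hdeg : C.V.degCycle E ≠ 0)
    (hA : LefschetzAUpTo W (X.prod C) (outerSum ops D E) c₀) : LefschetzAUpTo W X D c₀ := by
  intro j hjc hj y hy
  set D' := W.map (fst X C) (W.cl X D) with hD'
  set E' := W.map (snd X C) (W.cl C E) with hE'
  have hDm : D' ∈ W.gr (X.prod C) (2 * 1) := W.map_mem _ (W.cl_mem hD)
  have hN : W.cl (X.prod C) (outerSum ops D E) = D' + E' := by
    rw [outerSum, map_add, W.cl_pull, W.cl_pull]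
  have hsq : E' * E' = 0 := by
    have h1 : W.cl C E * W.cl C E ∈ W.gr C (2 * 1 + 2 * 1) :=
      W.mul_mem (W.cl_mem hE) (W.cl_mem hE)
    rw [W.gr_eq_bot _ _ (by omega)] at h1
    rw [hE', ← map_mul, (Submodule.mem_bot _).1 h1, map_zero]
  have hcomm : Commute D' E' := W.even_comm hDm E'
  have hyd : y ∈ W.gr X (2 * (X.dim - j)) := H447.span_gr hy
  have hE2 : E' ∈ spanCycles W (X.prod C) ((1 : ℕ) : ℤ) := by
    rw [hE', ← W.cl_pull]
    exact mem_span_cl (ops.pull_mem _ hE)
  have hyE : W.map (fst X C) y * E' ∈ spanCycles W (X.prod C) ((X.dim - j + 1 : ℕ) : ℤ) := by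
    have h1 := mul_span (W := W) (N := ops.pull (snd X C) E) (ops.pull_mem _ hE)
      (map_span (fst X C) hy)
    rw [W.cl_pull] at h1
    rw [← W.even_comm (W.map_mem _ (W.cl_mem hE))]
    exact h1
  obtain ⟨β, hβ, hβ'⟩ := hA j hjc (by rw [dim_prod]; omega) _ (by
    rw [dim_prod, hC, show X.dim + 1 - j = X.dim - j + 1 by omega]; exact hyE)
  have htr : W.tr C (W.cl C E) = (C.V.degCycle E : W.K) := W.tr_cl (by rw [hC]; exact hE)
  have hm : (C.V.degCycle E : W.K) ≠ 0 := by exact_mod_cast hdeg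
  set s := X.dim - 2 * j with hs
  rw [dim_prod, hC, show X.dim + 1 - 2 * j = s + 1 by omega, hN,
    pow_of_sq_zero hcomm hsq] at hβ'
  refine ⟨(C.V.degCycle E : W.K)⁻¹ • W.push (fst X C) ((D' + ((s + 1 : ℕ) : W.H (X.prod C)) * E') *
    β), Submodule.smul_mem _ _ (push_fst_span hC ?_), ?_⟩
  · rw [add_mul, mul_assoc]
    apply Submodule.add_mem
    · have h1 := mul_span (W := W) (N := ops.pull (fst X C) D) (ops.pull_mem _ hD) hβ
      rwa [W.cl_pull] at h1
    · have h1 := mul_span (W := W) (N := ops.pull (snd X C) E) (ops.pull_mem _ hE) hβ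
      rw [W.cl_pull] at h1
      rw [← nsmul_eq_mul, ← Nat.cast_smul_eq_nsmul W.K]
      exact Submodule.smul_mem _ _ h1
  · have hDs : W.cl X D ^ s ∈ W.gr X (2 * s) := by
      have : ∀ m : ℕ, W.cl X D ^ m ∈ W.gr X (2 * m) := by
        intro m
        induction m with
        | zero => simpa using W.one_mem X
        | succ m ih =>
          rw [pow_succ, show 2 * (m + 1) = 2 * m + 2 * 1 by ring]
          exact W.mul_mem ih (W.cl_mem hD)
      exact this s
    rw [mul_smul_comm, W.mul_push _ hDs, map_pow, ← mul_assoc, hβ',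
      W.even_comm (W.map_mem _ hyd), W.push_mul, push_fst_snd (p := 1) (W.cl_mem hE), htr,
      smul_mul_assoc, one_mul, inv_smul_smul₀ hm]

/-- **The conjecture A in dimension `d + 1` implies the conjecture A in dimension `d`.** -/
theorem aInDim_of_succ {P : ∀ X : 𝒱.Obj, X.Cycles → Prop} (hP : IsPolarization W P) {d c : ℕ}
    (h : AInDim W P (d + 1) c) : AInDim W P d c := by
  intro X D hD hd
  obtain ⟨C, E, hE, hC, hdeg⟩ := hP.curve
  exact descend (hP.div _ _ hD) (hP.div _ _ hE) hC hdeg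
    (h _ _ (hP.outer _ _ _ _ hD hE) (by rw [dim_prod, hC, hd]))

end Pool.Agent.Q200.AT
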