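import Pool.Agent.Q26.LF.Ample
import Pool.Agent.H447R3.AoDefs
import Pool.Agent.H447R3.DegDefs

/-!
# The conjecture A in families: definitions
-/

open CategoryTheory AlgebraicGeometry

universe u v u₀ v₀

namespace Pool.Agent.Q200.AT

open Pool.Agent.H914 Pool.Agent.H914.VarClass Pool.Agent.H914.VarClass.Obj
  Pool.Agent.H914.WeilCohomology Pool.Agent.H447 Pool.Agent.Q26.LF

section Alg

variable {K A : Type*} [Field K]

/-- The element `a` is fixed by the operators in `M`. -/
def FixedBy [AddCommGroup A] [Module K A] (M : Set (A →ₗ[K] A)) (a : A) : Prop := ∀ g ∈ M, g a = a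

/-- The product with `d ^ m` maps `S` onto `T` (each element of `T` is the product of `d ^ m` with an
element of `S`). -/
def MulOnto [Ring A] [Algebra K A] (d : A) (m : ℕ) (S T : Submodule K A) : Prop :=
  ∀ y ∈ T, ∃ x ∈ S, d ^ m * x = y

end Alg

variable {k : Type u} [Field k] {𝒱 : VarClass k} {ops : CycleOps 𝒱}
  {k₀ : Type u₀} [Field k₀] {𝒱₀ : VarClass k₀} {ops₀ : CycleOps 𝒱₀}

/-- The conjecture `A(X, D)` in the codimensions `j ≤ c`, for the combinations of classes of cycles
with coefficients in the coefficient field: for `2 j ≤ n = dim X` every such combination of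
codimension `n - j` is the product of `D ^ (n - 2 j)` with such a combination of codimension `j`. It
follows from the conjecture `LefschetzAIn` for rational coefficients. -/
def LefschetzAUpTo (W : WeilCohomology.{u, v} ops) (X : 𝒱.Obj) (D : X.Cycles) (c : ℕ) : Prop :=
  ∀ j ≤ c, 2 * j ≤ X.dim → MulOnto (W.cl X D) (X.dim - 2 * j) (spanCycles W X (j : ℤ))
    (spanCycles W X ((X.dim - j : ℕ) : ℤ))

/-- Isomorphisms `s` of the coefficients and `e` of the cohomologies of `X` and `V`. -/
structure CohIso (W : WeilCohomology.{u, v} ops) (W₀ : WeilCohomology.{u₀, v₀} ops₀) (X : 𝒱.Obj)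
    (V : 𝒱₀.Obj) where
  /-- the isomorphism of the coefficients -/
  s : W.K ≃+* W₀.K
  /-- the isomorphism of the cohomologies -/
  e : W.H X ≃+ W₀.H V

/-- The data of a model, see `Model`: the isomorphism `s` of the coefficients, the specialization
`e` in cohomology, the inclusion `ι` of the fibre `Z` in `Y`, the map `ν` from `Z` to `X₀`, and the
monodromy operators `mono` on `H(X₀)`. -/
structure ModelData (W : WeilCohomology.{u, v} ops) (W₀ : WeilCohomology.{u₀, v₀} ops₀) (X : 𝒱.Obj)
    (X₀ Y Z : 𝒱₀.Obj) extends CohIso W W₀ X X₀ where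
  /-- the inclusion of the fibre -/
  ι : Z ⟶ Y
  /-- the map to the fibre -/
  ν : Z ⟶ X₀
  /-- the monodromy operators -/
  mono : Set (W₀.H X₀ →ₗ[W₀.K] W₀.H X₀)

section Data

variable {W : WeilCohomology.{u, v} ops} {W₀ : WeilCohomology.{u₀, v₀} ops₀} {X : 𝒱.Obj}
  {X₀ Y Z : 𝒱₀.Obj}

/-- The isomorphism maps the class of the cycle `w` on `X` to that of the cycle `u` on `X₀`. -/
def CohIso.Gives (E : CohIso W W₀ X X₀) (w : X.Cycles) (u : X₀.Cycles) : Prop :=
  E.e (W.cl X w) = W₀.cl X₀ u

/-- The isomorphism `e` is graded, semilinear for `s`, and maps the products with the divisor `D` to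
the products with the divisor `D₀`. -/
structure CohIso.Compatible (E : CohIso W W₀ X X₀) (D : X.Cycles) (D₀ : X₀.Cycles) : Prop where
  iso : IsGradedIso E.s E.e (W.gr X) (W₀.gr X₀)
  map_div : MatchesClass E.e (W.cl X D) (W₀.cl X₀ D₀)

/-- The class `a` on `X₀` is invariant under the monodromy. -/
def ModelData.Inv (M : ModelData W W₀ X X₀ Y Z) (a : W₀.H X₀) : Prop := FixedBy M.mono a

/-- The monodromy preserves the degrees and commutes with the product with `D₀`. -/
def ModelData.MonoFixes (M : ModelData W W₀ X X₀ Y Z) (D₀ : X₀.Cycles) : Prop :=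
  Fixes (W₀.gr X₀) M.mono (W₀.cl X₀ D₀)

/-- The cycle `w` of codimension `p` on `X` extends to the model: its specialization is a cycle on
`X₀` with invariant class. -/
def ModelData.Spreads (M : ModelData W W₀ X X₀ Y Z) (p : ℕ) (w : X.Cycles) : Prop :=
  ∃ u, X₀.IsCyc p u ∧ M.Inv (W₀.cl X₀ u) ∧ M.Gives w u

/-- A cycle `z` on `Y` gives a cycle on `X` of the same codimension, whose specialization is the
image in `X₀` of the restriction of `z` to `Z`. -/
def ModelData.Generic (M : ModelData W W₀ X X₀ Y Z) : Prop :=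
  ∀ p z, Y.IsCyc p z → ∃ w, X.IsCyc p w ∧ M.Gives w (ops₀.push M.ν (ops₀.pull M.ι z))

/-- The theorem of Deligne on the fixed part: the invariant classes on `X₀`, pulled back to `Z`, are
restrictions of classes on `Y`. -/
def ModelData.Fixed (M : ModelData W W₀ X X₀ Y Z) : Prop :=
  ∀ a, M.Inv a → ∃ h, W₀.map M.ι h = W₀.map M.ν a

end Data

/-- A smooth projective family over a smooth connected curve `S` over the algebraically closed
field `k₀`, with geometric generic fibre `X` over the field `k` and fibre `X₀` over a point `s` of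
`S`, such that the cycle `w` of codimension `p` on `X` is defined over the function field of `S`; and
a smooth projective variety `Y` over `k₀`, with a map to the complete curve of `S`, which is
generically finite over a compactification of the family, with smooth fibre `Z` over `s`. The
isomorphism `e` is given by the specialization from `X` to `X₀`, and it maps the class of the
divisor `D` on `X` to that of the divisor `D₀` on `X₀`. The set `mono` consists of the operators of
the fundamental group of `S` on `H(X₀)`. -/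
structure Model (W : WeilCohomology.{u, v} ops) (W₀ : WeilCohomology.{u₀, v₀} ops₀) (X : 𝒱.Obj)
    (X₀ Y Z : 𝒱₀.Obj) (D : X.Cycles) (D₀ : X₀.Cycles) (p : ℕ) (w : X.Cycles) extends
    ModelData W W₀ X X₀ Y Z where
  compatible : toModelData.Compatible D D₀
  mono_div : toModelData.MonoFixes D₀
  dim : X₀.dim = X.dim
  dimZ : Z.dim = X₀.dim
  dimY : Y.dim = Z.dim + 1
  degree : NonzeroDegree (W₀.push ν)
  spreads : toModelData.Spreads p w
  generic : toModelData.Generic
  fixed : toModelData.Fixed

/-- `N` is an ample divisor on `Y`, and `ι` is the inclusion of a smooth fibre `Z` of `Y` over a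
curve. The fields are those of `IsAmple` of `Q26.LF`: hard Lefschetz for `N` on `Y` and on `Z`; the
normal bundle of `Z` is trivial; the invariants of the fundamental group (the restrictions of
classes on `Y`) have zero intersection with the kernel of the push-forward to `Y` (semisimplicity,
Deligne); relative hard Lefschetz and decomposition theorem (Beilinson, Bernstein, Deligne,
Gabber). -/
structure AmpleAlong (W₀ : WeilCohomology.{u₀, v₀} ops₀) {Y Z : 𝒱₀.Obj} (ι : Z ⟶ Y)
    (N : Y.Cycles) : Prop where
  div : Y.IsCyc 1 N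
  hard : HardLefschetz W₀ Y N
  hardZ : HardLefschetz W₀ Z (ops₀.pull ι N)
  normal : CompZero (W₀.map ι) (W₀.push ι)
  semisimple : InjOnRange (W₀.map ι) (W₀.push ι)
  relative : RelativeLefschetz (W₀.gr Y) Y.dim (W₀.cl Y N) (W₀.map ι) (W₀.push ι)

/-- The divisor `D × Y + X × E` on `X × Y`. -/
noncomputable def outerSum (ops : CycleOps 𝒱) {X Y : 𝒱.Obj} (D : X.Cycles) (E : Y.Cycles) :
    (X.prod Y).Cycles :=
  ops.pull (fst X Y) D + ops.pull (snd X Y) E

/-- `P` is a class of polarizations, e.g. the ample divisors: hard Lefschetz holds for its members,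
with `D` on `X` and `E` on `Y` it contains `D × Y + X × E` on `X × Y`, and it contains a divisor of
nonzero degree on a curve. -/
structure IsPolarization (W : WeilCohomology.{u, v} ops) (P : ∀ X : 𝒱.Obj, X.Cycles → Prop) :
    Prop where
  div : ∀ X D, P X D → X.IsCyc 1 D
  hard : ∀ X D, P X D → HardLefschetz W X D
  outer : ∀ X Y D E, P X D → P Y E → P (X.prod Y) (outerSum ops D E)
  curve : ∃ C E, P C E ∧ C.dim = 1 ∧ C.V.degCycle E ≠ 0

/-- Each variety `X` over `k` with a polarization `D` and a cycle `w` has a model over `k₀` with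
polarizations `D₀` on the fibre `X₀` and `N` on `Y`. -/
def HasModels (W : WeilCohomology.{u, v} ops) (W₀ : WeilCohomology.{u₀, v₀} ops₀)
    (P : ∀ X : 𝒱.Obj, X.Cycles → Prop) (P₀ : ∀ X : 𝒱₀.Obj, X.Cycles → Prop) : Prop :=
  ∀ (X : 𝒱.Obj) (D : X.Cycles) (p : ℕ) (w : X.Cycles), P X D → X.IsCyc p w →
    ∃ (X₀ Y Z : 𝒱₀.Obj) (D₀ : X₀.Cycles) (M : Model W W₀ X X₀ Y Z D D₀ p w) (N : Y.Cycles),
      P₀ X₀ D₀ ∧ P₀ Y N ∧ AmpleAlong W₀ M.ι N

/-- The variety `X` over `k`, with the divisor `D`, is obtained from the variety `V` over `k₀`, with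
the divisor `D₀`, by extension of the base field: the cohomologies are isomorphic, and the cycles on
`V` extend to cycles on `X` and the cycles on `X` specialize to cycles on `V`, with the same classes. -/
structure Extension (W : WeilCohomology.{u, v} ops) (W₀ : WeilCohomology.{u₀, v₀} ops₀) (X : 𝒱.Obj)
    (V : 𝒱₀.Obj) (D : X.Cycles) (D₀ : V.Cycles) extends CohIso W W₀ X V where
  compatible : toCohIso.Compatible D D₀
  dim : X.dim = V.dim
  extend : ∀ p z, V.IsCyc p z → ∃ w, X.IsCyc p w ∧ toCohIso.Gives w z
  specialize : ∀ p w, X.IsCyc p w → ∃ z, V.IsCyc p z ∧ toCohIso.Gives w z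

/-- Each polarized variety over `k₀` can be extended to `k`. -/
def HasExtensions (W : WeilCohomology.{u, v} ops) (W₀ : WeilCohomology.{u₀, v₀} ops₀)
    (P : ∀ X : 𝒱.Obj, X.Cycles → Prop) (P₀ : ∀ X : 𝒱₀.Obj, X.Cycles → Prop) : Prop :=
  ∀ (V : 𝒱₀.Obj) (D₀ : V.Cycles), P₀ V D₀ →
    ∃ (X : 𝒱.Obj) (D : X.Cycles), P X D ∧ Nonempty (Extension W W₀ X V D D₀)

/-- The conjecture A in the codimensions at most `c`, with coefficients in the coefficient field,
for all polarized varieties of dimension `d`. -/
def AInDim (W : WeilCohomology.{u, v} ops) (P : ∀ X : 𝒱.Obj, X.Cycles → Prop) (d c : ℕ) : Prop :=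
  ∀ X D, P X D → X.dim = d → LefschetzAUpTo W X D c

/-- The conjecture A in the codimensions at most `c`, with rational coefficients, for all polarized
varieties of dimension `d`. -/
def RationalAInDim (W : WeilCohomology.{u, v} ops) (P : ∀ X : 𝒱.Obj, X.Cycles → Prop) (d c : ℕ) :
    Prop :=
  ∀ X D, P X D → X.dim = d → ∀ j ≤ c, 2 * j ≤ d → LefschetzAIn W X D j

/-- The conjecture D for the cycles of dimension at most `c` on the polarized varieties of dimension
`d`: numerical and homological equivalence agree for them. -/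
def DInDim (W : WeilCohomology.{u, v} ops) (P : ∀ X : 𝒱.Obj, X.Cycles → Prop) (d c : ℕ) : Prop :=
  ∀ X D, P X D → X.dim = d → ∀ j ≤ c, 2 * j ≤ d → HomEqNumIn W X (d - j)

/-- The conjecture B for all polarized varieties of dimension `n`. -/
def BInDim (W : WeilCohomology.{u, v} ops) (P : ∀ X : 𝒱.Obj, X.Cycles → Prop) (n : ℕ) : Prop :=
  ∀ X D, P X D → X.dim = n → LefschetzB W X D

end Pool.Agent.Q200.AT
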