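import Pool.Agent.Q200.AT.Main

/-!
# The conjecture A in families: extension of the base field
-/

open CategoryTheory AlgebraicGeometry Finset

universe u v u₀ v₀

namespace Pool.Agent.Q200.AT

open Pool.Agent.H914 Pool.Agent.H914.VarClass Pool.Agent.H914.VarClass.Obj
  Pool.Agent.H914.WeilCohomology Pool.Agent.H447 Pool.Agent.Q26.LF

variable {k : Type u} [Field k] {𝒱 : VarClass k} {ops : CycleOps 𝒱}
  {k₀ : Type u₀} [Field k₀] {𝒱₀ : VarClass k₀} {ops₀ : CycleOps 𝒱₀}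
  {W : WeilCohomology.{u, v} ops} {W₀ : WeilCohomology.{u₀, v₀} ops₀}

section One

variable {X : 𝒱.Obj} {V : 𝒱₀.Obj} {D : X.Cycles} {D₀ : V.Cycles} (E : Extension W W₀ X V D D₀)

include E

lemma ext_mul_pow (m : ℕ) (a : W.H X) :
    E.e (W.cl X D ^ m * a) = W₀.cl V D₀ ^ m * E.e a := by
  induction m generalizing a with
  | zero => simp
  | succ m ih => rw [pow_succ, mul_assoc, ih, E.compatible.map_div, ← mul_assoc, ← pow_succ]

lemma ext_span {q : ℤ} {y : W₀.H V} (hy : y ∈ spanCycles W₀ V q) :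
    ∃ x ∈ spanCycles W X q, E.e x = y := by
  induction hy using Submodule.span_induction with
  | mem y hy =>
    obtain ⟨p, hp, z, hz, rfl⟩ := hy
    obtain ⟨w, hw, h⟩ := E.extend p z hz
    exact ⟨_, Submodule.subset_span ⟨p, hp, w, hw, rfl⟩, h⟩
  | zero => exact ⟨0, Submodule.zero_mem _, map_zero _⟩
  | add x y _ _ hx hy =>
    obtain ⟨a, ha, rfl⟩ := hx
    obtain ⟨b, hb, rfl⟩ := hy
    exact ⟨a + b, Submodule.add_mem _ ha hb, map_add _ _ _⟩
  | smul r x _ hx =>
    obtain ⟨a, ha, rfl⟩ := hx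
    exact ⟨E.s.symm r • a, Submodule.smul_mem _ _ ha, by
      rw [E.compatible.iso.semi, RingEquiv.apply_symm_apply]⟩

lemma spec_span {q : ℤ} {x : W.H X} (hx : x ∈ spanCycles W X q) :
    E.e x ∈ spanCycles W₀ V q := by
  induction hx using Submodule.span_induction with
  | mem x hx =>
    obtain ⟨p, hp, z, hz, rfl⟩ := hx
    obtain ⟨w, hw, h⟩ := E.specialize p z hz
    rw [show E.e (W.cl X z) = _ from h]
    exact Submodule.subset_span ⟨p, hp, w, hw, rfl⟩
  | zero => rw [map_zero]; exact Submodule.zero_mem _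
  | add x y _ _ hx hy => rw [map_add]; exact Submodule.add_mem _ hx hy
  | smul r x _ hx => rw [E.compatible.iso.semi]; exact Submodule.smul_mem _ _ hx

/-- the conjecture A descends to the smaller field -/
theorem upTo_of_ext {c : ℕ} (h : LefschetzAUpTo W X D c) : LefschetzAUpTo W₀ V D₀ c := by
  intro j hjc hj y hy
  obtain ⟨y', hy', rfl⟩ := ext_span E hy
  obtain ⟨x, hx, rfl⟩ := h j hjc (by rw [E.dim]; exact hj) y' (by rw [E.dim]; exact hy')
  refine ⟨_, spec_span E hx, ?_⟩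
  rw [ext_mul_pow E, E.dim]

end One

theorem aInDim_of_ext {P : ∀ X : 𝒱.Obj, X.Cycles → Prop} {P₀ : ∀ X : 𝒱₀.Obj, X.Cycles → Prop}
    (hE : HasExtensions W W₀ P P₀) {d c : ℕ} (h : AInDim W P d c) : AInDim W₀ P₀ d c := by
  intro V D₀ hD hd
  obtain ⟨X, D, hX, ⟨E⟩⟩ := hE V D₀ hD
  exact upTo_of_ext E (h X D hX (by rw [E.dim, hd]))

section Tower

variable {K : ℕ → Type u} [∀ i, Field (K i)] {𝒱 : ∀ i, VarClass (K i)}
  {ops : ∀ i, CycleOps (𝒱 i)} {W : ∀ i, WeilCohomology.{u, v} (ops i)}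
  {P : ∀ i, ∀ X : (𝒱 i).Obj, X.Cycles → Prop}

theorem ext_tower (hE : ∀ i, HasExtensions (W (i + 1)) (W i) (P (i + 1)) (P i)) (r d c : ℕ)
    (h : AInDim (W r) (P r) d c) : AInDim (W 0) (P 0) d c := by
  induction r with
  | zero => exact h
  | succ r ih => exact ih (aInDim_of_ext (hE r) h)

/-- **Codimension by codimension, the conjecture A does not depend on the field.** -/
theorem all_iff (hP : ∀ i, IsPolarization (W i) (P i))
    (hM : ∀ i, HasModels (W (i + 1)) (W i) (P (i + 1)) (P i))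
    (hE : ∀ i, HasExtensions (W (i + 1)) (W i) (P (i + 1)) (P i)) (r c : ℕ) :
    (∀ d, AInDim (W r) (P r) d c) ↔ ∀ d, AInDim (W 0) (P 0) d c :=
  ⟨fun h d => ext_tower hE r d c (h d), fun h d => transfer_tower hP hM r c d (h _)⟩

end Tower

end Pool.Agent.Q200.AT
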