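import Pool.Agent.Q200.AT.Defs
import Pool.Agent.Q26.LF.MainC
import Pool.Agent.H447R3.AoC

/-!
# The conjecture A in families: lifting of invariant algebraic classes
-/

open CategoryTheory AlgebraicGeometry Finset

universe u v u₀ v₀

namespace Pool.Agent.Q200.AT

open Pool.Agent.H914 Pool.Agent.H914.VarClass Pool.Agent.H914.VarClass.Obj
  Pool.Agent.H914.WeilCohomology Pool.Agent.H447 Pool.Agent.Q26.LF

variable {k : Type u} [Field k] {𝒱 : VarClass k} {ops : CycleOps 𝒱}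
  {W : WeilCohomology.{u, v} ops} {X Y Z : 𝒱.Obj}

lemma mul_span {N : Y.Cycles} (hN : Y.IsCyc 1 N) {q : ℕ} {γ : W.H Y}
    (hγ : γ ∈ spanCycles W Y (q : ℤ)) : W.cl Y N * γ ∈ spanCycles W Y ((q + 1 : ℕ) : ℤ) := by
  induction hγ using Submodule.span_induction with
  | mem x hx =>
    obtain ⟨p, hp, z, hz, rfl⟩ := hx
    obtain rfl : p = q := by exact_mod_cast hp
    exact Submodule.subset_span ⟨p + 1, rfl, ops.mul N z, by
      rw [add_comm p 1]; exact ops.mul_mem hN hz, W.cl_mul _ _⟩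
  | zero => rw [mul_zero]; exact Submodule.zero_mem _
  | add x y _ _ hx hy => rw [mul_add]; exact Submodule.add_mem _ hx hy
  | smul a x _ hx => rw [mul_smul_comm]; exact Submodule.smul_mem _ _ hx

lemma pow_mul_span {N : Y.Cycles} (hN : Y.IsCyc 1 N) (m : ℕ) {q : ℕ} {γ : W.H Y}
    (hγ : γ ∈ spanCycles W Y (q : ℤ)) :
    W.cl Y N ^ m * γ ∈ spanCycles W Y ((q + m : ℕ) : ℤ) := by
  induction m with
  | zero => simpa using hγ
  | succ m ih =>
    rw [pow_succ', mul_assoc]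
    exact mul_span hN ih

/-- the decomposition of an algebraic class -/
lemma exists_step {c₀ : ℕ} {N : Y.Cycles} (hA : LefschetzAUpTo W Y N c₀) (hN : Y.IsCyc 1 N)
    {f : Module.End W.K (W.H Y)}
    (hval : ∀ i ≤ Y.dim, ∀ a ∈ W.gr Y i,
      (LinearMap.mulLeft W.K (W.cl Y N) ^ (Y.dim - i + 1)) a = 0 → ∀ j ≤ Y.dim - i,
        f ((LinearMap.mulLeft W.K (W.cl Y N) ^ j) a) =
          ((j : W.K) * (((Y.dim - i : ℕ) : W.K) - j + 1)) •
            (LinearMap.mulLeft W.K (W.cl Y N) ^ (j - 1)) a)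
    (q : ℕ) (hq : q ≤ c₀) (a : W.H Y) (ha : a ∈ spanCycles W Y ((q + 1 : ℕ) : ℤ)) :
    ∃ b ∈ spanCycles W Y (q : ℤ), ∃ c, f c = 0 ∧ a = c + W.cl Y N * b := by
  by_cases h1 : 2 * (q + 1) ≤ Y.dim
  · obtain ⟨b, hb, hb'⟩ := hA q hq (by omega) (W.cl Y N ^ (Y.dim - 2 * (q + 1) + 1) * a) (by
      have := pow_mul_span hN (Y.dim - 2 * (q + 1) + 1) ha
      rwa [show q + 1 + (Y.dim - 2 * (q + 1) + 1) = Y.dim - q by omega] at this)
    refine ⟨b, hb, a - W.cl Y N * b, ?_, by abel⟩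
    have hg : a - W.cl Y N * b ∈ W.gr Y (2 * (q + 1)) :=
      Submodule.sub_mem _ (H447.span_gr ha) (H447.span_gr (mul_span hN hb))
    have h2 := hval (2 * (q + 1)) h1 _ hg (by
      rw [LinearMap.pow_mulLeft, LinearMap.mulLeft_apply, mul_sub, ← mul_assoc, ← pow_succ,
        ← hb', sub_eq_zero]
      congr 2
      omega) 0 (by omega)
    simpa using h2
  · by_cases h2 : q + 1 ≤ Y.dim
    · obtain ⟨x, hx, hx'⟩ := hA (Y.dim - (q + 1)) (by omega) (by omega) a (by
        rwa [show Y.dim - (Y.dim - (q + 1)) = q + 1 by omega])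
      refine ⟨W.cl Y N ^ (Y.dim - 2 * (Y.dim - (q + 1)) - 1) * x, ?_, 0, map_zero _, ?_⟩
      · have := pow_mul_span hN (Y.dim - 2 * (Y.dim - (q + 1)) - 1) hx
        rwa [show Y.dim - (q + 1) + (Y.dim - 2 * (Y.dim - (q + 1)) - 1) = q by omega] at this
      · rw [zero_add, ← mul_assoc, ← pow_succ', ← hx']
        congr 2
        omega
    · have h3 := H447.span_gr ha
      rw [W.gr_eq_bot Y _ (by omega)] at h3
      refine ⟨0, Submodule.zero_mem _, 0, map_zero _, ?_⟩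
      rw [(Submodule.mem_bot _).1 h3, mul_zero, add_zero]

/-- **The lowering operator preserves the algebraic classes if the conjecture A holds.** -/
theorem lower_span {c₀ : ℕ} {N : Y.Cycles} (hN : Y.IsCyc 1 N)
    (hA : LefschetzAUpTo W Y N c₀) {f : Module.End W.K (W.H Y)}
    (t : Sl2 (wt (W.isInternal Y) Y.dim) (LinearMap.mulLeft W.K (W.cl Y N)) f)
    (hf : IsHom (W.gr Y) (-2) f)
    (hval : ∀ i ≤ Y.dim, ∀ a ∈ W.gr Y i,
      (LinearMap.mulLeft W.K (W.cl Y N) ^ (Y.dim - i + 1)) a = 0 → ∀ j ≤ Y.dim - i,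
        f ((LinearMap.mulLeft W.K (W.cl Y N) ^ j) a) =
          ((j : W.K) * (((Y.dim - i : ℕ) : W.K) - j + 1)) •
            (LinearMap.mulLeft W.K (W.cl Y N) ^ (j - 1)) a) :
    ∀ q ≤ c₀, ∀ a ∈ spanCycles W Y ((q + 1 : ℕ) : ℤ), f a ∈ spanCycles W Y (q : ℤ) := by
  have hcomm : ∀ q : ℕ, ∀ b ∈ spanCycles W Y (q : ℤ), f (W.cl Y N * b) =
      W.cl Y N * f b - ((node Y.dim (2 * q) : ℚ) : W.K) • b := by
    intro q b hb
    have h1 := congrArg (fun T => T b) t.ef
    simp only [LinearMap.sub_apply, Module.End.mul_apply, LinearMap.mulLeft_apply] at h1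
    rw [wt, scal_apply (W.isInternal Y) _ (H447.span_gr hb)] at h1
    rw [← h1]; abel
  have h0 : ∀ a ∈ spanCycles W Y ((0 : ℕ) : ℤ), f a = 0 := by
    intro a ha
    have h1 := hf ((0 : ℕ) : ℤ) a (by rw [grZ_natCast]; exact H447.span_gr ha)
    rw [grZ_of_neg (by norm_num)] at h1
    exact (Submodule.mem_bot _).1 h1
  intro q
  induction q with
  | zero =>
    intro hq a ha
    obtain ⟨b, hb, c, hc, rfl⟩ := exists_step hA hN hval 0 hq a ha
    rw [map_add, hc, zero_add, hcomm 0 b hb, h0 b hb, mul_zero, zero_sub]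
    exact Submodule.neg_mem _ (Submodule.smul_mem _ _ hb)
  | succ q ih =>
    intro hq a ha
    obtain ⟨b, hb, c, hc, rfl⟩ := exists_step hA hN hval (q + 1) hq a ha
    rw [map_add, hc, zero_add, hcomm (q + 1) b hb]
    exact Submodule.sub_mem _ (mul_span hN (ih (by omega) b hb)) (Submodule.smul_mem _ _ hb)

/-- **Lifting of invariant algebraic classes.** -/
theorem lift_span {ι : Z ⟶ Y} (hdim : Y.dim = Z.dim + 1) {N : Y.Cycles}
    (hN : AmpleAlong W ι N) {p c₀ : ℕ} (hp : p ≤ c₀) (hA : LefschetzAUpTo W Y N c₀)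
    {c : W.H Z} (hc : c ∈ spanCycles W Z p) (hr : ∃ h, W.map ι h = c) :
    ∃ g ∈ spanCycles W Y p, W.map ι g = c := by
  obtain ⟨f, t, hf, hval⟩ := exists_sl2 (W.isInternal Y) (mulLeft_isHom hN.div) W_hbd hN.hard
  have hlow := lower_span hN.div hA t hf hval
  have hNcl : W.cl Y N ∈ W.gr Y (2 * 1) := W.cl_mem hN.div
  have hinj := inj_of_relative' (d := Z.dim) hdim (W.isInternal Y) (W.isInternal Z) W_hbd
    (N := LinearMap.mulLeft W.K (W.cl Y N))
    (N₀ := LinearMap.mulLeft W.K (W.cl Z (ops.pull ι N)))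
    (r := (W.map ι).toLinearMap) (j := W.push ι) hN.hard hN.hardZ
    (fun i c hc => by
      have h1 := W.mul_mem (W.cl_mem (ops.pull_mem ι hN.div)) hc
      rw [LinearMap.mulLeft_apply, add_comm]
      exact h1)
    (fun i x hx => W.map_mem ι hx)
    (fun i c hc => by
      have h1 := W.push_mem ι hc
      rw [hdim, show ((i : ℕ) : ℤ) + 2 * (((Z.dim + 1 : ℕ) : ℤ) - (Z.dim : ℤ)) =
        ((i + 2 : ℕ) : ℤ) by push_cast; ring, grZ_natCast] at h1
      exact h1)
    (fun x => by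
      change W.map ι (W.cl Y N * x) = W.cl Z (ops.pull ι N) * W.map ι x
      rw [map_mul, W.cl_pull])
    (fun c => by
      rw [LinearMap.mulLeft_apply, LinearMap.mulLeft_apply, W.cl_pull]
      exact (mul_push W ι hNcl c).symm)
    (fun c => hN.normal c)
    (fun x h0 => hN.semisimple x h0)
    (fun b h1 hb x hx h0 h2 => by
      rw [LinearMap.pow_mulLeft] at h2
      exact hN.relative b h1 hb x hx h0 h2)
    t hf hval
  let P : W.H Z →ₗ[W.K] W.H Z := (W.map ι).toLinearMap ∘ₗ f ∘ₗ W.push ι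
  let A : Submodule W.K (W.H Z) := spanCycles W Z p ⊓ LinearMap.range (W.map ι).toLinearMap
  have hfg : ∀ c ∈ A, f (W.push ι c) ∈ spanCycles W Y (p : ℤ) :=
    fun c hc => hlow p hp _ (push_span ι hdim hc.1)
  have hPA : ∀ c ∈ A, P c ∈ A := fun c hc => ⟨map_span ι (hfg c hc), ⟨_, rfl⟩⟩
  have hPinj : Function.Injective (P.restrict hPA) := by
    rw [← LinearMap.ker_eq_bot, LinearMap.ker_eq_bot']
    rintro ⟨c, hc⟩ h0
    have h1 : P c = 0 := congrArg Subtype.val h0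
    obtain ⟨x, rfl⟩ := hc.2
    exact Subtype.ext (hinj x h1)
  obtain ⟨⟨c', hc'⟩, h1⟩ := (LinearMap.injective_iff_surjective.1 hPinj) ⟨c, hc, hr⟩
  exact ⟨_, hfg c' hc', congrArg Subtype.val h1⟩

/-- The conjecture A with rational coefficients implies the conjecture with coefficients in the
coefficient field. -/
theorem span_of_rational {D : X.Cycles} {c : ℕ}
    (h : ∀ j ≤ c, 2 * j ≤ X.dim → LefschetzAIn W X D j) : LefschetzAUpTo W X D c := by
  intro j hjc hj y hy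
  induction hy using Submodule.span_induction with
  | mem y hy =>
    obtain ⟨p, hp, z, hz, rfl⟩ := hy
    obtain rfl : p = X.dim - j := by exact_mod_cast hp
    obtain ⟨z', hz', h1⟩ := h j hjc hj z hz
    refine ⟨_, mem_span_cl hz', ?_⟩
    rw [← h1, cl_divPow, LinearMap.pow_mulLeft, LinearMap.mulLeft_apply]
  | zero => exact ⟨0, Submodule.zero_mem _, mul_zero _⟩
  | add x y _ _ hx hy =>
    obtain ⟨a, ha, rfl⟩ := hx
    obtain ⟨b, hb, rfl⟩ := hy
    exact ⟨a + b, Submodule.add_mem _ ha hb, mul_add _ _ _⟩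
  | smul r x _ hx =>
    obtain ⟨a, ha, rfl⟩ := hx
    exact ⟨r • a, Submodule.smul_mem _ _ ha, mul_smul_comm _ _ _⟩

end Pool.Agent.Q200.AT
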