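import Pool.Agent.Q200.AT.Curve

/-!
# The conjecture A in families: from `k₀` to `k`
-/

open CategoryTheory AlgebraicGeometry Finset

universe u v u₀ v₀

namespace Pool.Agent.Q200.AT

open Pool.Agent.H914 Pool.Agent.H914.VarClass Pool.Agent.H914.VarClass.Obj
  Pool.Agent.H914.WeilCohomology Pool.Agent.H447 Pool.Agent.Q26.LF

variable {k : Type u} [Field k] {𝒱 : VarClass k} {ops : CycleOps 𝒱}
  {k₀ : Type u₀} [Field k₀] {𝒱₀ : VarClass k₀} {ops₀ : CycleOps 𝒱₀}
  {W : WeilCohomology.{u, v} ops} {W₀ : WeilCohomology.{u₀, v₀} ops₀}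

section One

variable {X : 𝒱.Obj} {X₀ Y Z : 𝒱₀.Obj} {D : X.Cycles} {D₀ : X₀.Cycles} {p : ℕ} {w : X.Cycles}
  (M : Model W W₀ X X₀ Y Z D D₀ p w)

include M

lemma e_mul_pow (m : ℕ) (a : W.H X) :
    M.e (W.cl X D ^ m * a) = W₀.cl X₀ D₀ ^ m * M.e a := by
  induction m generalizing a with
  | zero => simp
  | succ m ih => rw [pow_succ, mul_assoc, ih, M.compatible.map_div, ← mul_assoc, ← pow_succ]

/-- invariance is inherited by the preimages under the Lefschetz operators -/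
lemma inv_of_pow (hHL₀ : HardLefschetz W₀ X₀ D₀) {j : ℕ} (hj : 2 * j ≤ X₀.dim) {v : W₀.H X₀}
    (hv : v ∈ W₀.gr X₀ (2 * j)) (h : M.Inv (W₀.cl X₀ D₀ ^ (X₀.dim - 2 * j) * v)) : M.Inv v := by
  intro g hg
  have hgp : ∀ (m : ℕ) b, g (W₀.cl X₀ D₀ ^ m * b) = W₀.cl X₀ D₀ ^ m * g b := by
    intro m
    induction m with
    | zero => intro b; simp
    | succ m ih =>
      intro b
      rw [pow_succ, mul_assoc, ih, (M.mono_div g hg).2, ← mul_assoc, ← pow_succ]
  rw [← sub_eq_zero]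
  apply (hHL₀ (2 * j) hj).1 _ (Submodule.sub_mem _ ((M.mono_div g hg).1 _ v hv) hv)
  rw [LinearMap.pow_mulLeft, LinearMap.mulLeft_apply, mul_sub, ← hgp, h g hg, sub_self]

/-- **The conjecture A for one class of cycles.** -/
theorem transfer_one (hHL₀ : HardLefschetz W₀ X₀ D₀) {N : Y.Cycles} (hN : AmpleAlong W₀ M.ι N)
    {c : ℕ} (hAY : LefschetzAUpTo W₀ Y N c) (hA₀ : LefschetzAUpTo W₀ X₀ D₀ c) {j : ℕ}
    (hjc : j ≤ c) (hj : 2 * j ≤ X.dim) (hp : p = X.dim - j) :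
    ∃ x ∈ spanCycles W X (j : ℤ), W.cl X D ^ (X.dim - 2 * j) * x = W.cl X w := by
  have hdim := M.dim
  obtain ⟨u, hu, hinv, hue⟩ := M.spreads
  have hue : W₀.cl X₀ u = M.e (W.cl X w) := Eq.symm hue
  obtain ⟨v, hv, hvu⟩ := hA₀ j hjc (by omega) (W₀.cl X₀ u) (by
    rw [hdim, ← hp]; exact mem_span_cl hu)
  have hvinv : M.Inv v := by
    apply inv_of_pow M hHL₀ (by omega) (H447.span_gr hv)
    rw [hvu]
    exact hinv
  obtain ⟨h, hh⟩ := M.fixed v hvinv
  obtain ⟨g, hg, hg'⟩ := AT.lift_span M.dimY hN hjc hAY (map_span M.ν hv) ⟨h, hh⟩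
  -- the combination of cycles on `X`
  have hgen : ∀ g ∈ spanCycles W₀ Y (j : ℤ), ∃ x ∈ spanCycles W X (j : ℤ),
      M.e x = W₀.push M.ν (W₀.map M.ι g) := by
    intro g hg
    induction hg using Submodule.span_induction with
    | mem x hx =>
      obtain ⟨q, hq, z, hz, rfl⟩ := hx
      obtain rfl : q = j := by exact_mod_cast hq
      obtain ⟨w', hw', h1⟩ := M.generic q z hz
      refine ⟨_, mem_span_cl hw', ?_⟩
      rw [show M.e (W.cl X w') = _ from h1, W₀.cl_push, W₀.cl_pull]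
    | zero => exact ⟨0, Submodule.zero_mem _, by rw [map_zero, map_zero, map_zero]⟩
    | add x y _ _ hx hy =>
      obtain ⟨a, ha, h1⟩ := hx
      obtain ⟨b, hb, h2⟩ := hy
      exact ⟨a + b, Submodule.add_mem _ ha hb, by rw [map_add, h1, h2, map_add, map_add]⟩
    | smul r x _ hx =>
      obtain ⟨a, ha, h1⟩ := hx
      refine ⟨M.s.symm r • a, Submodule.smul_mem _ _ ha, ?_⟩
      rw [M.compatible.iso.semi, h1, RingEquiv.apply_symm_apply, map_smul, map_smul]
  obtain ⟨x, hx, hxe⟩ := hgen g hg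
  obtain ⟨m, hm, hm'⟩ := M.degree
  have hxv : M.e x = m • v := by
    have h1 := W₀.push_mul M.ν 1 v
    rw [one_mul, hm', smul_mul_assoc, one_mul] at h1
    rw [hxe, hg', h1]
  refine ⟨M.s.symm m⁻¹ • x, Submodule.smul_mem _ _ hx, ?_⟩
  apply M.e.injective
  rw [e_mul_pow M, M.compatible.iso.semi, hxv, RingEquiv.apply_symm_apply, inv_smul_smul₀ hm, ← hue, ← hvu,
    hdim]

end One

/-- **The conjecture A over `k` from the conjecture A over `k₀` in one more dimension.** -/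
theorem transfer {P : ∀ X : 𝒱.Obj, X.Cycles → Prop} {P₀ : ∀ X : 𝒱₀.Obj, X.Cycles → Prop}
    (hP₀ : IsPolarization W₀ P₀) (hM : HasModels W W₀ P P₀) {d c : ℕ}
    (h' : AInDim W₀ P₀ (d + 1) c) : AInDim W P d c := by
  have h : AInDim W₀ P₀ d c := aInDim_of_succ hP₀ h'
  intro X D hD hd j hjc hj y hy
  induction hy using Submodule.span_induction with
  | mem y hy =>
    obtain ⟨p, hp, z, hz, rfl⟩ := hy
    obtain rfl : p = X.dim - j := by exact_mod_cast hp
    obtain ⟨X₀, Y, Z, D₀, M, N, hD₀, hN₀, hN⟩ := hM X D _ z hD hz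
    exact transfer_one M (hP₀.hard _ _ hD₀) hN
      (h' Y N hN₀ (by rw [M.dimY, M.dimZ, M.dim, hd])) (h X₀ D₀ hD₀ (by rw [M.dim, hd])) hjc hj rfl
  | zero => exact ⟨0, Submodule.zero_mem _, mul_zero _⟩
  | add x y _ _ hx hy =>
    obtain ⟨a, ha, rfl⟩ := hx
    obtain ⟨b, hb, rfl⟩ := hy
    exact ⟨a + b, Submodule.add_mem _ ha hb, mul_add _ _ _⟩
  | smul r x _ hx =>
    obtain ⟨a, ha, rfl⟩ := hx
    exact ⟨r • a, Submodule.smul_mem _ _ ha, mul_smul_comm _ _ _⟩

/-- The conjecture B for `X` from the conjecture A for `X × X`, with coefficients in the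
coefficient field. -/
theorem lefschetzB_of_square {X : 𝒱.Obj} {D : X.Cycles} (hD : X.IsCyc 1 D)
    (hHL : HardLefschetz W X D) (hA : LefschetzAUpTo W (X.prod X) (boxSum ops D) (X.dim - 1)) :
    LefschetzB W X D := by
  have h := W.isInternal X
  have hLR := rop_mulLeft (W := W) hD
  have hOA := rop_opAlg (W := W) (X := X)
  have hKA := hOA.kspan
  obtain ⟨f, t, hf, hfv⟩ := exists_sl2 h (mulLeft_isHom hD) W_hbd hHL
  by_cases hn : X.dim = 0
  · apply lefschetzB_of_lower hD hHL t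
    have : f = 0 := by
      apply gr_ext h
      intro i a ha
      rw [LinearMap.zero_apply]
      by_cases hi : i = 0
      · have h1 := hf i a (by rw [grZ_natCast]; exact ha)
        rw [grZ_of_neg (by omega)] at h1
        exact (Submodule.mem_bot _).1 h1
      · rw [W.gr_eq_bot X i (by omega)] at ha
        rw [(Submodule.mem_bot _).1 ha, map_zero]
    rw [this]
    exact hOA.zero _
  have hfK : f ∈ KS (ROp W X) (-1) := by
    apply lower_mem_of_surj hKA h W_hbd (Submodule.subset_span hLR) hHL t hf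
    intro y hy
    obtain ⟨γ, hγ, rfl⟩ := mem_KOp_iff.1 (mem_KS_iff.1 hy)
    obtain ⟨x, hx, hxγ⟩ := hA (X.dim - 1) le_rfl (by rw [dim_prod]; omega) γ (by
      rw [dim_prod, show X.dim + X.dim - (X.dim - 1) = X.dim + 1 by omega]
      exact_mod_cast hγ)
    refine ⟨W.corr x, mem_KS_iff.2 (mem_KOp_iff.2 ⟨x, ?_, rfl⟩), ?_⟩
    · rwa [show (X.dim : ℤ) + -1 = ((X.dim - 1 : ℕ) : ℤ) by omega]
    · rw [← corr_boxSum_pow hD, ← hxγ, LinearMap.pow_mulLeft, LinearMap.mulLeft_apply, dim_prod,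
        show X.dim + X.dim - 2 * (X.dim - 1) = 2 by omega]
  apply lefschetzB_of_inj hD hHL
  intro c _
  refine ⟨f ^ c, ?_, ?_⟩
  · rw [← mem_KS_iff]
    exact hKA.cast (hKA.pow hfK c) (by ring)
  · intro a ha h0
    apply f_pow_inj t _ h0
    rw [wt, scal_apply _ _ ha]
    congr 1
    rw [node]
    push_cast; ring

section Tower

variable {k₁ : Type u} [Field k₁] {𝒱₁ : VarClass k₁} {ops₁ : CycleOps 𝒱₁}

variable {K : ℕ → Type u} [∀ i, Field (K i)] {𝒱 : ∀ i, VarClass (K i)}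
  {ops : ∀ i, CycleOps (𝒱 i)} {W : ∀ i, WeilCohomology.{u, v} (ops i)}
  {P : ∀ i, ∀ X : (𝒱 i).Obj, X.Cycles → Prop}

/-- **The conjecture A in a tower.** -/
theorem transfer_tower (hP : ∀ i, IsPolarization (W i) (P i))
    (hM : ∀ i, HasModels (W (i + 1)) (W i) (P (i + 1)) (P i)) (r c : ℕ) :
    ∀ d, AInDim (W 0) (P 0) (d + r) c → AInDim (W r) (P r) d c := by
  induction r with
  | zero => intro d h; exact h
  | succ r ih =>
    intro d h
    refine transfer (hP r) (hM r) (ih (d + 1) ?_)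
    rw [show d + 1 + r = d + (r + 1) by omega]
    exact h

/-- The conjecture B for a variety from the conjecture A in twice its dimension. -/
theorem b_of_a {W : WeilCohomology.{u, v} ops₁} {P : ∀ X : 𝒱₁.Obj, X.Cycles → Prop}
    (hP : IsPolarization W P) {n : ℕ} (h : AInDim W P (2 * n) (n - 1)) : BInDim W P n := by
  intro X D hD hn
  apply lefschetzB_of_square (hP.div _ _ hD) (hP.hard _ _ hD)
  rw [hn]
  exact h _ _ (hP.outer _ _ _ _ hD hD) (by rw [dim_prod, hn]; ring)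

theorem a_of_rational {W : WeilCohomology.{u, v} ops₁} {P : ∀ X : 𝒱₁.Obj, X.Cycles → Prop}
    {d c : ℕ} (h : RationalAInDim W P d c) : AInDim W P d c :=
  fun V E hE hV => span_of_rational fun j hj h2 => h V E hE hV j hj (by rwa [← hV])

theorem b_tower (hP : ∀ i, IsPolarization (W i) (P i))
    (hM : ∀ i, HasModels (W (i + 1)) (W i) (P (i + 1)) (P i)) (r n : ℕ)
    (h : RationalAInDim (W 0) (P 0) (2 * n + r) (n - 1)) : BInDim (W r) (P r) n :=
  b_of_a (hP r) (transfer_tower hP hM r (n - 1) (2 * n) (a_of_rational h))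

end Tower

section Square

variable {X : 𝒱.Obj} {X₀ Y Z : 𝒱₀.Obj} {D : X.Cycles} {D₀ : X₀.Cycles}

/-- In the theorem on the fibre square of a family the conjecture B for `Y` can be replaced by the
conjecture A. -/
theorem b_iff_fibre (F : Family W W₀ X X₀ Y Z D D₀) (hD : X.IsCyc 1 D)
    (hHL : HardLefschetz W X D) {N : Y.Cycles} (hN : IsAmple F N)
    (hA : LefschetzAUpTo W₀ Y N (X.dim - 1)) : LefschetzB W X D ↔ LefschetzB W₀ X₀ D₀ := by
  refine ⟨lefschetzB_fibre F, fun hB₀ => ?_⟩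
  apply lefschetzB_of_spanExt F hD hHL
  intro c h1 hc τ hτ
  have hHL₀ := hl_fibre F hHL
  obtain ⟨w, hw, hT⟩ := exists_cycle_of_lefschetzB F.div hHL₀ hB₀ hc
  have hτw : W₀.cl _ w = τ := by
    have h2 : W₀.corr (W₀.cl _ w) = W₀.corr τ := IsInv.unique (W₀.isInternal X₀) hHL₀ hc hT hτ.2
    have h3 : corrLin W₀ X₀ X₀ (W₀.cl _ w - τ) = 0 := by
      rw [map_sub]
      exact sub_eq_zero.2 h2
    exact sub_eq_zero.1 (corr_inj h3)
  obtain ⟨m, hm, hm', hres⟩ := inverse_res F hHL₀ hc hτ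
  have hspan : W₀.map F.ν τ ∈ spanCycles W₀ Z ((X₀.dim - c : ℕ) : ℤ) := by
    apply map_span
    rw [← hτw]
    exact mem_span_cl hw
  have hN' : AmpleAlong W₀ F.ι N :=
    ⟨hN.div, hN.hard, hN.hardZ, hN.normal, hN.semisimple, hN.relative⟩
  obtain ⟨g, hg, hg'⟩ := AT.lift_span F.dimY hN' (by rw [F.dim]; omega) hA hspan hres
  refine ⟨m⁻¹ • g, Submodule.smul_mem _ _ hg, fun δ _ => ?_⟩
  rw [map_smul, resH_apply, hg', hm', inv_smul_smul₀ hm]

end Square

end Pool.Agent.Q200.AT
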