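import Pool.Agent.Q200.AT.Ext

/-!
# The conjecture A in families: from numerical equivalence
-/

open CategoryTheory AlgebraicGeometry Finset Module

universe u v u₀ v₀

namespace Pool.Agent.Q200.AT

open Pool.Agent.H914 Pool.Agent.H914.VarClass Pool.Agent.H914.VarClass.Obj
  Pool.Agent.H914.WeilCohomology Pool.Agent.H447 Pool.Agent.Q26.LF

variable {k : Type u} [Field k] {𝒱 : VarClass k} {ops : CycleOps 𝒱}
  {W : WeilCohomology.{u, v} ops}

/-- The conjecture A follows from the conjecture D for the cycles of the same dimensions. -/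
theorem upTo_of_homEqNum {X : 𝒱.Obj} {D : X.Cycles} (hD : X.IsCyc 1 D)
    (hHL : HardLefschetz W X D) {c : ℕ}
    (h : ∀ j ≤ c, 2 * j ≤ X.dim → HomEqNumIn W X (X.dim - j)) : LefschetzAUpTo W X D c := by
  intro j hjc hj y hy
  have hmaps : ∀ x ∈ spanCycles W X (j : ℤ),
      (LinearMap.mulLeft W.K (W.cl X D ^ (X.dim - 2 * j))) x ∈
        spanCycles W X ((X.dim - j : ℕ) : ℤ) := by
    intro x hx
    have := pow_mul_span hD (X.dim - 2 * j) hx
    rwa [show j + (X.dim - 2 * j) = X.dim - j by omega] at this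
  set φ := (LinearMap.mulLeft W.K (W.cl X D ^ (X.dim - 2 * j))).restrict hmaps with hφ
  have hφi : Function.Injective φ := by
    rw [← LinearMap.ker_eq_bot, LinearMap.ker_eq_bot']
    rintro ⟨x, hx⟩ h0
    have h1 : W.cl X D ^ (X.dim - 2 * j) * x = 0 := congrArg Subtype.val h0
    apply Subtype.ext
    apply (hHL (2 * j) hj).1 x (H447.span_gr hx)
    rw [LinearMap.pow_mulLeft, LinearMap.mulLeft_apply, h1]
  let ψ : spanCycles W X ((X.dim - j : ℕ) : ℤ) →ₗ[W.K]
      Module.Dual W.K (spanCycles W X (j : ℤ)) :=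
    (bil W X).domRestrict₁₂ (spanCycles W X ((X.dim - j : ℕ) : ℤ)) (spanCycles W X (j : ℤ))
  have hψi : Function.Injective ψ := by
    rw [← LinearMap.ker_eq_bot, LinearMap.ker_eq_bot']
    rintro ⟨γ, hγ⟩ h0
    apply Subtype.ext
    refine HomEqNumIn.span (q := X.dim - j) (p := j) (by omega) (h j hjc hj) hγ fun w hw => ?_
    have h1 : W.tr X (γ * W.cl X w) = 0 := congrArg (fun T => T ⟨_, mem_span_cl hw⟩) h0
    rw [W.even_comm (W.cl_mem hw)]
    exact h1
  have h1 : finrank W.K (spanCycles W X (j : ℤ)) ≤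
      finrank W.K (spanCycles W X ((X.dim - j : ℕ) : ℤ)) :=
    LinearMap.finrank_le_finrank_of_injective hφi
  have h2 : finrank W.K (spanCycles W X ((X.dim - j : ℕ) : ℤ)) ≤
      finrank W.K (spanCycles W X (j : ℤ)) := by
    have := LinearMap.finrank_le_finrank_of_injective hψi
    rwa [Subspace.dual_finrank_eq] at this
  have hsurj : Function.Surjective φ :=
    (LinearMap.injective_iff_surjective_of_finrank_eq_finrank (le_antisymm h1 h2)).1 hφi
  obtain ⟨⟨x, hx⟩, hxy⟩ := hsurj ⟨y, hy⟩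
  exact ⟨x, hx, congrArg Subtype.val hxy⟩

theorem a_of_d {P : ∀ X : 𝒱.Obj, X.Cycles → Prop} (hP : IsPolarization W P)
    {d c : ℕ} (h : DInDim W P d c) : AInDim W P d c := by
  rintro V E hE rfl
  exact upTo_of_homEqNum (hP.div _ _ hE) (hP.hard _ _ hE) (h V E hE rfl)

section Tower

variable {K : ℕ → Type u} [∀ i, Field (K i)] {𝒱 : ∀ i, VarClass (K i)}
  {ops : ∀ i, CycleOps (𝒱 i)} {W : ∀ i, WeilCohomology.{u, v} (ops i)}
  {P : ∀ i, ∀ X : (𝒱 i).Obj, X.Cycles → Prop}

theorem b_of_d_tower (hP : ∀ i, IsPolarization (W i) (P i))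
    (hM : ∀ i, HasModels (W (i + 1)) (W i) (P (i + 1)) (P i)) (r n : ℕ)
    (h : DInDim (W 0) (P 0) (2 * n + r) (n - 1)) : BInDim (W r) (P r) n :=
  b_of_a (hP r) (transfer_tower hP hM r (n - 1) (2 * n) (a_of_d (hP 0) h))

end Tower

end Pool.Agent.Q200.AT
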