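import Pool.Agent.Q200.AT.Num
import Pool.Agent.Q26.KP.Main

/-!
# The Kunneth components in families, from the conjecture A
-/

open CategoryTheory AlgebraicGeometry Finset

universe u v u₀ v₀

namespace Pool.Agent.Q200.AT

open Pool.Agent.H914 Pool.Agent.H914.VarClass Pool.Agent.H914.VarClass.Obj
  Pool.Agent.H914.WeilCohomology Pool.Agent.H447 Pool.Agent.Q26.LF

variable {k : Type u} [Field k] {𝒱 : VarClass k} {ops : CycleOps 𝒱}
  {k₀ : Type u₀} [Field k₀] {𝒱₀ : VarClass k₀} {ops₀ : CycleOps 𝒱₀}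
  {W : WeilCohomology.{u, v} ops} {W₀ : WeilCohomology.{u₀, v₀} ops₀}

section Square

variable {X : 𝒱.Obj} {X₀ Y Z : 𝒱₀.Obj} {D : X.Cycles} {D₀ : X₀.Cycles}
  (F : Family W W₀ X X₀ Y Z D D₀)

/-- a cycle on `X₀ × X₀` with invariant class is numerically equivalent to the restriction of a
cycle on `Y` -/
theorem exists_ext {N : Y.Cycles} (hN : AmpleAlong W₀ F.ι N)
    (hA : LefschetzAUpTo W₀ Y N X.dim) {P : (X₀.prod X₀).Cycles}
    (hP : (X₀.prod X₀).IsCyc X₀.dim P) (hinv : F.Inv (W₀.corr (W₀.cl _ P))) :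
    ∃ z, Y.IsCyc X₀.dim z ∧ ∀ c, (X₀.prod X₀).IsCyc X₀.dim c →
      (X₀.prod X₀).V.degCycle (ops₀.mul (F.res z) c) =
        (X₀.prod X₀).V.degCycle (ops₀.mul P c) := by
  obtain ⟨m, hm, hm'⟩ := F.degree
  have hspan : W₀.map F.ν (W₀.cl _ P) ∈ spanCycles W₀ Z ((X₀.dim : ℕ) : ℤ) :=
    map_span _ (mem_span_cl hP)
  obtain ⟨g, hg, hg'⟩ := AT.lift_span F.dimY hN (le_of_eq F.dim) hA hspan (F.fixed _ hinv)
  have hres : resH F g = m • W₀.cl _ P := by
    have h1 := W₀.push_mul F.ν 1 (W₀.cl _ P)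
    rw [one_mul, hm', smul_mul_assoc, one_mul] at h1
    rw [resH_apply, hg', h1]
  have hdim : X₀.dim + X₀.dim = (X₀.prod X₀).dim := by rw [dim_prod]
  have hcl : ∀ (p q : Y.Cycles), W₀.cl (X₀.prod X₀) (F.res (p + q)) =
      W₀.cl _ (F.res p) + W₀.cl _ (F.res q) := by
    intro p q
    rw [cl_res, cl_res, cl_res, map_add, map_add]
  have hcs : ∀ (r : ℚ) (p : Y.Cycles), W₀.cl (X₀.prod X₀) (F.res (r • p)) =
      (r : W₀.K) • W₀.cl _ (F.res p) := by
    intro r p
    rw [cl_res, cl_res, cl_smul, map_smul]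
  have hdeg : ∀ (z : Q26.KF.cyc Y X₀.dim) (c : Q26.KF.cyc (X₀.prod X₀) X₀.dim),
      (((X₀.prod X₀).V.degCycle (ops₀.mul (F.res z.1) c.1) : ℚ) : W₀.K) =
        W₀.tr _ (W₀.cl _ (F.res z.1) * W₀.cl _ c.1) :=
    fun z c => Q26.KF.deg_mul (W := W₀) (res_mem F z.2) c.2 hdim
  let β : Q26.KF.cyc Y X₀.dim →ₗ[ℚ] Q26.KF.cyc (X₀.prod X₀) X₀.dim →ₗ[ℚ] ℚ :=
    LinearMap.mk₂ ℚ (fun z c => (X₀.prod X₀).V.degCycle (ops₀.mul (F.res z.1) c.1))
      (by
        intro m₁ m₂ c
        apply Rat.cast_injective (α := W₀.K)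
        rw [Rat.cast_add, hdeg, hdeg, hdeg, ← map_add, ← add_mul, ← hcl]
        rfl)
      (by
        intro r m c
        apply Rat.cast_injective (α := W₀.K)
        rw [smul_eq_mul, Rat.cast_mul, hdeg, hdeg, Submodule.coe_smul, hcs,
          smul_mul_assoc, map_smul, smul_eq_mul])
      (by
        intro m c₁ c₂
        apply Rat.cast_injective (α := W₀.K)
        rw [Rat.cast_add, hdeg, hdeg, hdeg, ← map_add, ← mul_add, ← map_add]
        rfl)
      (by
        intro r m c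
        apply Rat.cast_injective (α := W₀.K)
        rw [smul_eq_mul, Rat.cast_mul, hdeg, hdeg, Submodule.coe_smul, cl_smul,
          mul_smul_comm, map_smul, smul_eq_mul])
  have hdegP : ∀ c : Q26.KF.cyc (X₀.prod X₀) X₀.dim,
      (((X₀.prod X₀).V.degCycle (ops₀.mul P c.1) : ℚ) : W₀.K) =
        W₀.tr _ (W₀.cl _ P * W₀.cl _ c.1) :=
    fun c => Q26.KF.deg_mul (W := W₀) hP c.2 hdim
  let φ : Q26.KF.cyc (X₀.prod X₀) X₀.dim →ₗ[ℚ] ℚ :=
    { toFun := fun c => (X₀.prod X₀).V.degCycle (ops₀.mul P c.1)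
      map_add' := by
        intro c₁ c₂
        apply Rat.cast_injective (α := W₀.K)
        rw [Rat.cast_add, hdegP, hdegP, hdegP, ← map_add, ← mul_add, ← map_add]
        rfl
      map_smul' := by
        intro r c
        apply Rat.cast_injective (α := W₀.K)
        rw [RingHom.id_apply, smul_eq_mul, Rat.cast_mul, hdegP, hdegP,
          Submodule.coe_smul, cl_smul, mul_smul_comm, map_smul, smul_eq_mul] }
  obtain ⟨z, hz⟩ := Q26.KF.exists_eq_of_orth (bil W₀ (X₀.prod X₀))
    (fun z : Q26.KF.cyc Y X₀.dim => W₀.cl _ (F.res z.1))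
    (fun c : Q26.KF.cyc (X₀.prod X₀) X₀.dim => W₀.cl _ c.1) β hdeg φ (by
      intro c hc
      have hc' : ∀ z, Y.IsCyc X₀.dim z → W₀.tr _ (resH F (W₀.cl Y z) * W₀.cl _ c.1) = 0 := by
        intro z hz
        rw [← cl_res, ← hdeg ⟨z, hz⟩ c]
        have h1 : (X₀.prod X₀).V.degCycle (ops₀.mul (F.res z) c.1) = 0 := hc ⟨z, hz⟩
        rw [h1, Rat.cast_zero]
      have h2 : ∀ g ∈ spanCycles W₀ Y ((X₀.dim : ℕ) : ℤ),
          W₀.tr _ (resH F g * W₀.cl _ c.1) = 0 := by
        intro g hg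
        induction hg using Submodule.span_induction with
        | mem x hx =>
          obtain ⟨q, hq, z, hz, rfl⟩ := hx
          obtain rfl : q = X₀.dim := by exact_mod_cast hq
          exact hc' z hz
        | zero => rw [map_zero, zero_mul, map_zero]
        | add x y _ _ hx hy => rw [map_add, add_mul, map_add, hx, hy, add_zero]
        | smul r x _ hx => rw [map_smul, smul_mul_assoc, map_smul, hx, smul_zero]
      have h3 := h2 g hg
      rw [hres, smul_mul_assoc, map_smul, smul_eq_mul] at h3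
      apply Rat.cast_injective (α := W₀.K)
      change (((X₀.prod X₀).V.degCycle (ops₀.mul P c.1) : ℚ) : W₀.K) = ((0 : ℚ) : W₀.K)
      rw [hdegP, Rat.cast_zero]
      exact (mul_eq_zero.1 h3).resolve_left hm)
  exact ⟨z.1, z.2, fun c hc => congrArg (fun ψ => ψ ⟨c, hc⟩) hz⟩

/-- operators which are scalars on the graded pieces are invariant -/
theorem inv_scal (c : ℕ → W₀.K) : F.Inv (scal (W₀.isInternal X₀) c) := by
  intro g hg a
  have h1 : scal (W₀.isInternal X₀) c * g = g * scal (W₀.isInternal X₀) c := by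
    apply gr_ext (W₀.isInternal X₀)
    intro j a ha
    have h2 := (F.mono_div g hg).1 j a ha
    rw [Module.End.mul_apply, Module.End.mul_apply, scal_apply _ _ ha, scal_apply _ _ h2,
      map_smul]
  exact congrArg (fun G => G a) h1

theorem e_scal (r : ℕ → ℚ) (a : W.H X) :
    F.e (scal (W.isInternal X) (fun j => (r j : W.K)) a) =
      scal (W₀.isInternal X₀) (fun j => (r j : W₀.K)) (F.e a) := by
  refine gr_induction (W.isInternal X)
    (p := fun a => F.e (scal (W.isInternal X) (fun j => (r j : W.K)) a) =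
      scal (W₀.isInternal X₀) (fun j => (r j : W₀.K)) (F.e a)) ?_ ?_ a
  · intro j a ha
    have ha' := (F.iso.gr j a).2 ha
    rw [scal_apply _ _ ha, scal_apply _ _ ha', F.iso.semi, map_ratCast]
  · intro a b ha hb
    rw [map_add, map_add, map_add, map_add, ha, hb]

/-- the operator of a cycle on `Y` numerically equivalent to that of a cycle on `X₀ × X₀` -/
theorem rop_of_poly (r : ℕ → ℚ) {z : Y.Cycles} (hz : Y.IsCyc X₀.dim z)
    (h : ∃ g : Polynomial ℚ, scal (W₀.isInternal X₀) (fun j => (r j : W₀.K)) =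
      ev (W₀.corr (W₀.cl _ (F.res z))) g) :
    ROp W X 0 (scal (W.isInternal X) (fun j => (r j : W.K))) := by
  obtain ⟨g, hg⟩ := h
  obtain ⟨w, hw, hm⟩ := F.generic _ z hz
  have hm' : Q26.KF.Matches F.e (W.corr (W.cl (X.prod X) w))
      (W₀.corr (W₀.cl (X₀.prod X₀) (F.res z))) := hm
  have hm2 := Q26.KF.Matches.ev F.iso.semi hm' g
  have h3 : scal (W.isInternal X) (fun j => (r j : W.K)) = ev (W.corr (W.cl _ w)) g := by
    apply LinearMap.ext
    intro a
    apply F.e.injective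
    rw [hm2, ← hg]
    exact e_scal F r a
  rw [h3]
  exact rop_opAlg.ev (rop_corr (by rw [F.dim]; simp) hw) g

include F in
/-- the operator of a cycle on `X` specializes -/
theorem rop_fibre (r : ℕ → ℚ) (h : ROp W X 0 (scal (W.isInternal X) (fun j => (r j : W.K)))) :
    ROp W₀ X₀ 0 (scal (W₀.isInternal X₀) (fun j => (r j : W₀.K))) := by
  obtain ⟨w, hw, hw'⟩ := exists_of_rop (p := X.dim) (by simp) h
  obtain ⟨u, hu, hm⟩ := F.specializes _ w hw
  have h1 : scal (W₀.isInternal X₀) (fun j => (r j : W₀.K)) = W₀.corr (W₀.cl _ u) := by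
    apply LinearMap.ext
    intro b
    obtain ⟨a, rfl⟩ := F.e.surjective b
    rw [← e_scal F r a, ← hw']
    exact hm a
  rw [h1]
  exact rop_corr (by rw [F.dim]; simp) hu

theorem evenProj_eq {k : Type u} [Field k] {𝒱 : VarClass k} {ops : CycleOps 𝒱}
    (W : WeilCohomology.{u, v} ops) (X : 𝒱.Obj) : evenProj (W.isInternal X) =
      scal (W.isInternal X) (fun j => ((if Even j then (1 : ℚ) else 0 : ℚ) : W.K)) := by
  rw [evenProj]
  congr 1
  funext j
  split_ifs <;> simp

theorem proj_eq {k : Type u} [Field k] {𝒱 : VarClass k} {ops : CycleOps 𝒱}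
    (W : WeilCohomology.{u, v} ops) (X : 𝒱.Obj) (i : ℕ) : proj (W.isInternal X) i =
      scal (W.isInternal X) (fun j => ((if j = i then (1 : ℚ) else 0 : ℚ) : W.K)) := by
  rw [proj]
  congr 1
  funext j
  split_ifs <;> simp

/-- **The sign conjecture in families.** -/
theorem sign_iff {N : Y.Cycles} (hN : AmpleAlong W₀ F.ι N) (hA : LefschetzAUpTo W₀ Y N X.dim) :
    SignStd W X ↔ SignStd W₀ X₀ := by
  constructor
  · rintro ⟨P, hP, hPi⟩
    apply Q26.KP.sign_of_rop
    rw [evenProj_eq]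
    apply rop_fibre F
    rw [← evenProj_eq, ← isEvenProj_iff.1 hPi]
    exact rop_corr (by simp) hP
  · intro hC
    have hpar := par_rop_of_sign hC
    obtain ⟨P, hP, hPi⟩ := hC
    have hPe := isEvenProj_iff.1 hPi
    obtain ⟨z, hz, hnum⟩ := exists_ext F hN hA hP (by
      rw [hPe, evenProj_eq]
      exact inv_scal F _)
    have hzm := res_mem F hz
    have hp : ROp W₀ X₀ 0 (evenProj (W₀.isInternal X₀)) := by
      rw [← hPe]
      exact rop_corr (by simp) hP
    have h1 : NumRep W₀ (X₀.prod X₀) X₀.dim (F.res z) (W₀.cl _ P) := by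
      intro c hc
      rw [hnum c hc, Q26.KF.deg_mul (W := W₀) hP hc (by rw [dim_prod])]
      rfl
    rw [numRep_iff hzm (W₀.cl_mem hP), hPe] at h1
    apply Q26.KP.sign_of_rop
    rw [evenProj_eq]
    apply rop_of_poly F _ hz
    rw [← evenProj_eq]
    exact Q26.KP.poly_of_num_even rop_opAlg (W₀.isInternal X₀) hpar (rop_corr (by simp) hzm) hp h1

/-- **The Kunneth components in families.** -/
theorem kunneth_iff {N : Y.Cycles} (hN : AmpleAlong W₀ F.ι N)
    (hA : LefschetzAUpTo W₀ Y N X.dim) : KunnethStd W X ↔ KunnethStd W₀ X₀ := by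
  constructor
  · intro hC
    apply kunneth_of_rop
    intro i
    rw [proj_eq]
    apply rop_fibre F
    rw [← proj_eq]
    exact kunneth_rop hC i
  · intro hC
    apply kunneth_of_rop
    intro i
    obtain ⟨P, hP, hPi⟩ := hC i
    have hPe := isProjTo_iff.1 hPi
    obtain ⟨z, hz, hnum⟩ := exists_ext F hN hA hP (by
      rw [hPe, proj_eq]
      exact inv_scal F _)
    have hzm := res_mem F hz
    have h1 : NumRep W₀ (X₀.prod X₀) X₀.dim (F.res z) (W₀.cl _ P) := by
      intro c hc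
      rw [hnum c hc, Q26.KF.deg_mul (W := W₀) hP hc (by rw [dim_prod])]
      rfl
    rw [numRep_iff hzm (W₀.cl_mem hP), hPe] at h1
    have hpar : ROp W₀ X₀ 0 (par (W₀.isInternal X₀)) :=
      par_rop_of_sign (sign_of_kunneth fun i => kunneth_rop hC i)
    rw [proj_eq]
    apply rop_of_poly F _ hz
    rw [← proj_eq]
    exact Q26.KF.poly_of_num rop_opAlg (W₀.isInternal X₀) hpar (rop_corr (by simp) hzm)
      (kunneth_rop hC i) h1

end Square

/-- The conjecture B gives the conjecture C. -/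
theorem kunneth_of_b {X : 𝒱.Obj} {D : X.Cycles} (hD : X.IsCyc 1 D) (hHL : HardLefschetz W X D)
    (hB : LefschetzB W X D) : KunnethStd W X := by
  obtain ⟨Φ, hΦ, hLam⟩ := lefschetzB_iff_rop.1 hB
  exact kunneth_of_rop fun i => rop_opAlg.proj_mem (W.isInternal X) W_hbd (rop_mulLeft (W := W) hD)
    hHL hΦ hLam i

theorem sign_of_k {X : 𝒱.Obj} (hC : KunnethStd W X) : SignStd W X :=
  sign_of_kunneth fun i => kunneth_rop hC i

end Pool.Agent.Q200.AT
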